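import Pool.Agent.H30.UfDiv

open Pool.Agent.H30.UfDiv

theorem Pool.Agent.Results.MP_31068f_lc.Counter.result :
    ∃ F G : Ultrafilter ℕ+, InL F ∧ InL G ∧ Fe F G ∧ ¬ DivM F G :=
  ⟨W 0, G, ⟨1, W_L⟩, ⟨2, G_L⟩, fe_G, not_div⟩
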